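import Pool.Agent.Helper94.BA.Sent
import Pool.Agent.Helper32.HB.Ev2
import Pool.Agent.Helper32.HB.Cho
import Pool.Agent.Helper32.HB.Pnt
import Pool.Agent.Helper32.HB.Nam

/-! # BA-V4: the transfer of the sentence to a countable transitive model -/

set_option autoImplicit false
set_option linter.unusedSectionVars false

namespace Pool.Agent.Helper94.BA

open Set Filter Pool.Agent.Helper33.HM Pool.Agent.Helper33.HMG Pool.Agent.Helper32.HB

universe u

section Events

variable {P : Type u} [Preorder P]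

/-- The truth value `a` holds generically exactly if the event `b` holds. -/
def h32_Ev (a : RO P) (b : GF P → Prop) : Prop := ∀ᶠ G in aeG P, (Fr G a ↔ b G)

theorem h32_self (a : RO P) : h32_Ev a fun G => Fr G a := Eventually.of_forall fun _ => Iff.rfl

theorem h32_all {ι : Sort*} [Countable ι] {a : ι → RO P} {b : ι → GF P → Prop}
    (h : ∀ i, h32_Ev (a i) (b i)) : h32_Ev (⨅ i, a i) fun G => ∀ i, b i G := by
  filter_upwards [ae_iInf a, eventually_countable_forall.2 h] with G h1 h2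
  rw [h1]
  exact forall_congr' h2

theorem h32_ex {ι : Sort*} [Countable ι] {a : ι → RO P} {b : ι → GF P → Prop}
    (h : ∀ i, h32_Ev (a i) (b i)) : h32_Ev (⨆ i, a i) fun G => ∃ i, b i G := by
  filter_upwards [ae_iSup a, eventually_countable_forall.2 h] with G h1 h2
  rw [h1]
  exact exists_congr h2

theorem h32_not {a : RO P} {b : GF P → Prop} (h : h32_Ev a b) : h32_Ev aᶜ fun G => ¬ b G := by
  filter_upwards [ae_compl a, h] with G h1 h2
  rw [h1, h2]

theorem h32_imp {a a' : RO P} {b b' : GF P → Prop} (h : h32_Ev a b) (h' : h32_Ev a' b') :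
    h32_Ev (a ⇨ a') fun G => b G → b' G := by
  filter_upwards [ae_himp a a', h, h'] with G h1 h2 h3
  rw [h1, h2, h3]

theorem h32_or {a a' : RO P} {b b' : GF P → Prop} (h : h32_Ev a b) (h' : h32_Ev a' b') :
    h32_Ev (a ⊔ a') fun G => b G ∨ b' G := by
  filter_upwards [ae_sup a a', h, h'] with G h1 h2 h3
  rw [h1, h2, h3]

theorem h32_and {a a' : RO P} {b b' : GF P → Prop} (h : h32_Ev a b) (h' : h32_Ev a' b') :
    h32_Ev (a ⊓ a') fun G => b G ∧ b' G := by
  filter_upwards [h, h'] with G h2 h3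
  rw [fr_inf, h2, h3]

theorem h32_congr {a : RO P} {b b' : GF P → Prop} (h : h32_Ev a b) (hb : ∀ G, b G ↔ b' G) :
    h32_Ev a b' := by
  filter_upwards [h] with G h1
  rw [h1, hb]

theorem h32_ev_decV (x : ℕ → RO P) (n k : ℕ) :
    h32_Ev (decV x n k) fun G => fnLe (fun n => Fr G (x n)) n k := by
  refine h32_or (h32_congr (h32_ex fun j => h32_ex fun _ : j ≤ k => h32_self _) fun G => ?_)
    (h32_all fun j => h32_not (h32_self _))
  simp only [exists_prop]

theorem h32_ev_leStar (x y : ℕ → RO P) :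
    h32_Ev (leStar (decV x) (decV y)) fun G =>
      LeStar (fun n => Fr G (x n)) (fun n => Fr G (y n)) :=
  h32_ex fun _ => h32_all fun _ => h32_all fun _ => h32_all fun _ =>
    h32_imp (h32_ev_decV y _ _) (h32_ev_decV x _ _)

theorem h32_ev_finV {x : ℕ → RO P} {b : ℕ → GF P → Prop} (h : ∀ n, h32_Ev (x n) (b n)) :
    h32_Ev (finV x) fun G => Fin' fun n => b n G :=
  h32_ex fun _ => h32_all fun _ => h32_all fun _ => h32_not (h _)

theorem h32_ev_eqV (x y : ℕ → RO P) :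
    h32_Ev (eqV x y) fun G => ∀ n, (Fr G (x n) ↔ Fr G (y n)) :=
  h32_all fun _ => h32_congr
    (h32_and (h32_imp (h32_self _) (h32_self _)) (h32_imp (h32_self _) (h32_self _)))
    fun _ => (iff_iff_implies_and_implies).symm

theorem h32_ev_usup (l : List (ℕ → RO P)) (n : ℕ) :
    h32_Ev (usup l n) fun G => ∃ a ∈ l, Fr G (a n) := by
  induction l with
  | nil =>
    refine Eventually.of_forall fun G => ?_
    constructor
    · rintro ⟨p, -, hp⟩
      exact (RO.not_mem_bot p hp).elim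
    · rintro ⟨a, ha, -⟩
      exact absurd ha (List.not_mem_nil)
  | cons a l ih =>
    have e : usup (a :: l) n = a n ⊔ usup l n := rfl
    rw [e]
    refine h32_congr (h32_or (h32_self _) ih) fun G => ?_
    simp

/-- The relation coded by a set. -/
def h32_wd {B : Type*} (w : ℕ → B) (i k : ℕ) : B := w (Nat.pair i k)

theorem h32_ev_brT (T : List (Bool × ℕ) → RO P) (x w : ℕ → RO P) :
    h32_Ev (brT T x (h32_wd w)) fun G => (∀ i, ∃ k, Fr G (w (Nat.pair i k))) ∧
      ∀ t, Br (fun n => Fr G (x n)) (fun n => Fr G (w n)) t → Fr G (T t) := by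
  refine h32_and (h32_all fun i => h32_ex fun k => h32_self _)
    (h32_all fun t => h32_imp ?_ (h32_self _))
  refine h32_all fun i => h32_all fun h => h32_and ?_ (h32_self _)
  cases hb : (t[i]).1
  · simp only [Bool.false_eq_true, if_false]
    exact h32_congr (h32_not (h32_self _)) fun G => by simp
  · simp only [if_true]
    exact h32_congr (h32_self _) fun G => by simp

end Events

section Names

variable {P : Type u} [Preorder P] [OrderTop P]

/-- The name of the set of points `E`. -/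
def h32_setN (E : (ℕ → RO P) → RO P) : Nm P :=
  .mk {y : (ℕ → RO P) × P // y.2 ∈ E y.1} (fun y => nm y.1.1) (fun y => y.1.2)

theorem h32_mem_of_feq {x y : ℕ → RO P} {p : P} (h : feq (nm x) (nm y) p) :
    p ∈ ⨅ n : ℕ, iffV (x n) (y n) := by
  rw [RO.mem_iInf]
  intro n
  refine RO.mem_inf.2 ⟨?_, ?_⟩
  · rw [RO.mem_himp]
    intro q hq hqx
    exact fmem_nN_nm.1 (fmem_congr_right (feq_mono h hq) (fmem_nN_nm.2 hqx))
  · rw [RO.mem_himp]
    intro q hq hqx
    exact fmem_nN_nm.1 (fmem_congr_right (feq_symm (feq_mono h hq)) (fmem_nN_nm.2 hqx))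

theorem h32_SE_setN {E : (ℕ → RO P) → RO P} (hE : IsSetName E) : SE (h32_setN E) = E := by
  funext x
  apply RO.ext'
  intro p
  constructor
  · intro h
    refine RO.mem_reg fun q hq => ?_
    obtain ⟨s, hs, ⟨⟨y, r⟩, hr⟩, h1, h2⟩ := mem_memv.1 h q hq
    refine ⟨s, hs, ?_⟩
    have h3 : s ∈ ⨅ n : ℕ, iffV (y n) (x n) := h32_mem_of_feq (feq_symm h2)
    have h4 := hE y x
    rw [RO.le_def] at h4
    exact h4 s (RO.mem_inf.2 ⟨h3, RO.mem_lower h1 hr⟩)
  · intro h
    refine mem_memv.2 fun q hq => ?_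
    exact ⟨q, le_rfl, ⟨(x, q), RO.mem_lower hq h⟩, le_rfl, feq_refl _ _⟩

/-- The `i`-th set coded by the name `τ`. -/
def h32_sq (τ : Nm P) (i n : ℕ) : RO P := rl τ (Nat.pair i n)

/-- The code of a sequence of names of sets. -/
def h32_cq (X : ℕ → ℕ → RO P) (c : ℕ) : RO P := X c.unpair.1 c.unpair.2

theorem h32_sq_nm (X : ℕ → ℕ → RO P) : h32_sq (nm (h32_cq X)) = X := by
  funext i n
  unfold h32_sq
  rw [rl_nm]
  unfold h32_cq
  rw [Nat.unpair_pair]

/-- The value of: `a` belongs to the member with index `x` of the family, by the witness `w`. -/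
def h32_FA (E : (ℕ → RO P) → RO P) (γ : Nm P) (x a w : ℕ → RO P) : RO P :=
  E x ⊓ brT (treeV (SE γ) x) a (h32_wd w)

theorem h32_mem_famV {E : (ℕ → RO P) → RO P} {γ : Nm P} {a : ℕ → RO P} {p : P}
    (h : p ∈ famV E (SE γ) a) : ∃ q, q ≤ p ∧ ∃ x w, q ∈ h32_FA E γ x a w := by
  unfold famV at h
  obtain ⟨q, hq, x, hx⟩ := RO.mem_iSup.1 h p le_rfl
  obtain ⟨r, hr, w, hw⟩ := RO.mem_iSup.1 hx q le_rfl
  refine ⟨r, hr.trans hq, x, fun c => w c.unpair.1 c.unpair.2, ?_⟩
  have e : h32_wd (fun c => w c.unpair.1 c.unpair.2) = w := by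
    funext i k
    simp [h32_wd, Nat.unpair_pair]
  unfold h32_FA
  rw [e]
  exact hw

theorem h32_FA_le (E : (ℕ → RO P) → RO P) (γ : Nm P) (x a w : ℕ → RO P) :
    h32_FA E γ x a w ≤ famV E (SE γ) a := by
  unfold famV
  exact le_iSup_of_le x (le_iSup_of_le (h32_wd w) le_rfl)

theorem h32_mem_allV {E : (ℕ → RO P) → RO P} {γ : Nm P} (l : List (ℕ → RO P)) {p : P}
    (h : p ∈ allV (famV E (SE γ)) l) : ∃ q, q ≤ p ∧ ∃ X : ℕ → ℕ → RO P,
      ((List.range l.length).map fun i => X (3 * i + 1)) = l ∧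
      ∀ i < l.length, q ∈ h32_FA E γ (X (3 * i)) (X (3 * i + 1)) (X (3 * i + 2)) := by
  induction l generalizing p with
  | nil => exact ⟨p, le_rfl, fun _ _ => ⊥, rfl, fun i hi => absurd hi (Nat.not_lt_zero i)⟩
  | cons a l ih =>
    have e : allV (famV E (SE γ)) (a :: l) = famV E (SE γ) a ⊓ allV (famV E (SE γ)) l := rfl
    rw [e, RO.mem_inf] at h
    obtain ⟨q, hq, x, w, hxw⟩ := h32_mem_famV h.1
    obtain ⟨r, hr, X, hX1, hX2⟩ := ih (RO.mem_lower hq h.2)
    refine ⟨r, hr.trans hq, fun j => match j with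
      | 0 => x
      | 1 => a
      | 2 => w
      | j + 3 => X j, ?_, ?_⟩
    · rw [List.length_cons, List.range_succ_eq_map, List.map_cons, List.map_map]
      refine congrArg₂ List.cons rfl ?_
      conv_rhs => rw [← hX1]
      rfl
    · intro i hi
      cases i with
      | zero => exact RO.mem_lower hr hxw
      | succ i => exact hX2 i (by simpa using hi)

end Names

/-- The requirements of the generic sequence. -/
inductive h32_R : Type
  | setE | unb | ad | nc | con | re | sh (s : ℕ) | sq (i : ℕ)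
  deriving Countable

/-- The events which must hold at the generic point. -/
inductive h32_E : Type
  | leS | tr | ad | nc (m : ℕ) | fin | inf
  deriving Countable

section Tra

variable {P : Type u} [Preorder P] [OrderTop P]

/-- The requirements. -/
def h32_W (E : (ℕ → RO P) → RO P) : h32_R → (ℕ → Nm P) → P → Nm P → Prop
  | .setE, _, _, x => x = h32_setN E
  | .unb, v, q, x => q ∈ E (rl x) ⊓ (leStar (decV (rl x)) (decV (rl (v 0))))ᶜ
  | .ad, v, q, x => q ∈ h32_FA E (v 0) (h32_sq x 2) (h32_sq x 0) (h32_sq x 3) ∧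
      q ∈ h32_FA E (v 0) (h32_sq x 4) (h32_sq x 1) (h32_sq x 5) ∧
      q ∈ (eqV (h32_sq x 0) (h32_sq x 1) ⊔ finV (h32_sq x 0 ⊓ h32_sq x 1))ᶜ
  | .nc, v, q, x => ∃ m : ℕ, (∀ i < m, q ∈ h32_FA E (v 0) (h32_sq x (3 * i))
      (h32_sq x (3 * i + 1)) (h32_sq x (3 * i + 2))) ∧
      q ∈ finV (usup ((List.range m).map fun i => h32_sq x (3 * i + 1)))ᶜ
  | .con, v, q, x => q ∈ (finV (rl x))ᶜ ⊓ ⨅ a : ℕ → RO P, famV E (SE (v 0)) a ⇨ finV (rl x ⊓ a)
  | .re, v, _, x => x = nm (rl (v 0))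
  | .sh s, v, _, x => x = nm (shV s (rl (v 0)))
  | .sq i, v, _, x => x = nm (h32_sq (v 0) i)

/-- The events. -/
def h32_Es : h32_E → (ℕ → Nm P) → Set (GF P)
  | .leS, v => {G | Fr G (leStar (decV (rl (v 0))) (decV (rl (v 1)))) ↔
      LeStar (fun n => Fr G (rl (v 0) n)) fun n => Fr G (rl (v 1) n)}
  | .tr, v => {G | Fr G (brT (treeV (SE (v 0)) (rl (v 1))) (rl (v 2)) (h32_wd (rl (v 3)))) ↔
      (∀ i, ∃ k, Fr G (rl (v 3) (Nat.pair i k))) ∧
      ∀ t, Br (fun n => Fr G (rl (v 2) n)) (fun n => Fr G (rl (v 3) n)) t →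
        Fr G (treeV (SE (v 0)) (rl (v 1)) t)}
  | .ad, v => {G | Fr G (eqV (rl (v 0)) (rl (v 1)) ⊔ finV (rl (v 0) ⊓ rl (v 1))) ↔
      (∀ n, (Fr G (rl (v 0) n) ↔ Fr G (rl (v 1) n))) ∨
      Fin' fun n => Fr G (rl (v 0) n) ∧ Fr G (rl (v 1) n)}
  | .nc m, v => {G | Fr G (finV (usup ((List.range m).map fun i => h32_sq (v 0) (3 * i + 1)))ᶜ) ↔
      Fin' fun n => ¬ ∃ a ∈ (List.range m).map fun i => h32_sq (v 0) (3 * i + 1), Fr G (a n)}
  | .fin, v => {G | Fr G (finV (rl (v 0))) ↔ Fin' fun n => Fr G (rl (v 0) n)}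
  | .inf, v => {G | Fr G (finV (rl (v 0) ⊓ rl (v 1))) ↔
      Fin' fun n => Fr G (rl (v 0) n) ∧ Fr G (rl (v 1) n)}

theorem h32_ae (r : h32_E) (v : ℕ → Nm P) : ∀ᶠ G in aeG P, G ∈ h32_Es r v := by
  cases r with
  | leS => exact h32_ev_leStar _ _
  | tr => exact h32_ev_brT _ _ _
  | ad => exact h32_or (h32_ev_eqV _ _) (h32_ev_finV fun n => h32_and (h32_self _) (h32_self _))
  | nc m => exact h32_ev_finV fun n => h32_not (h32_ev_usup _ n)
  | fin => exact h32_ev_finV fun n => h32_self _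
  | inf => exact h32_ev_finV fun n => h32_and (h32_self _) (h32_self _)

theorem h32_exists_compl {U : RO P} {p : P} (h : ¬ p ∈ U) : ∃ q, q ≤ p ∧ q ∈ Uᶜ := by
  by_contra hcon
  push Not at hcon
  apply h
  refine RO.mem_reg fun q hq => ?_
  have h1 := hcon q hq
  rw [RO.mem_compl] at h1
  push Not at h1
  exact h1

theorem h32_fr_shV {G : GF P} (s : ℕ) (x : ℕ → RO P) (n : ℕ) :
    Fr G (shV s x n) ↔ sh s (fun n => Fr G (x n)) n := by
  unfold shV sh
  split_ifs with h1 h2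
  · exact ⟨fun _ => Or.inl h1, fun _ => fr_top G⟩
  · constructor
    · rintro ⟨p, -, hp⟩
      exact (RO.not_mem_bot p hp).elim
    · rintro (h | h)
      · exact absurd h h1
      · omega
  · constructor
    · intro h
      exact Or.inr ⟨by omega, h⟩
    · rintro (h | h)
      · exact absurd h h1
      · exact h.2

end Tra

/-- If the sentence has the value `⊤` in the algebra of regular open subsets of `P`, then it holds
in a countable transitive model of ZFC. -/
theorem exists_model {P : Type u} [Preorder P] [OrderTop P] (hP : Holds (RO P)) :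
    ∃ M : Set ZFSet.{0}, M.Countable ∧ IsTransModelZFC M ∧
      Sentence (realsP M) (setsP M) := by
  obtain ⟨E, hE, hEu, hEC⟩ := hP
  obtain ⟨R₁, W₁, g, hch, hreq, hpt⟩ := exists_point (P := P) (h32_W E) h32_Es h32_ae
  refine ⟨g.M, g.countable_M, zfc_of_ch g hch, ?_⟩
  -- closure properties of the fragment
  have reN : ∀ τ ∈ g.N, nm (rl τ) ∈ g.N := by
    intro τ hτ
    obtain ⟨k, hk | hk⟩ := hreq .re [τ] (by simpa using hτ)
    · obtain ⟨x, hx, hx'⟩ := hk
      have e : x = nm (rl τ) := hx'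
      rw [← e]
      exact hx
    · exact absurd rfl (hk _ le_rfl (nm (rl τ)))
  have shN : ∀ s, ∀ τ ∈ g.N, nm (shV s (rl τ)) ∈ g.N := by
    intro s τ hτ
    obtain ⟨k, hk | hk⟩ := hreq (.sh s) [τ] (by simpa using hτ)
    · obtain ⟨x, hx, hx'⟩ := hk
      have e : x = nm (shV s (rl τ)) := hx'
      rw [← e]
      exact hx
    · exact absurd rfl (hk _ le_rfl (nm (shV s (rl τ))))
  have sqN : ∀ i, ∀ τ ∈ g.N, nm (h32_sq τ i) ∈ g.N := by
    intro i τ hτ
    obtain ⟨k, hk | hk⟩ := hreq (.sq i) [τ] (by simpa using hτ)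
    · obtain ⟨x, hx, hx'⟩ := hk
      have e : x = nm (h32_sq τ i) := hx'
      rw [← e]
      exact hx
    · exact absurd rfl (hk _ le_rfl (nm (h32_sq τ i)))
  have hε : h32_setN E ∈ g.N := by
    obtain ⟨k, hk | hk⟩ := hreq .setE [] (by simp)
    · obtain ⟨x, hx, hx'⟩ := hk
      have e : x = h32_setN E := hx'
      rw [← e]
      exact hx
    · exact absurd rfl (hk _ le_rfl (h32_setN E))
  have hSE : SE (h32_setN E) = E := h32_SE_setN hE
  -- points
  have memSE : ∀ τ ∈ g.N, ∀ x, nm x ∈ g.N →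
      (Fr (pt g) (SE τ x) ↔ realP (fun n => Fr (pt g) (x n)) ∈ g.val τ) := by
    intro τ hτ x hx
    rw [← val_nm g hx, ← g.mem_iff hx hτ, fr_pt g]
    rfl
  have realN : ∀ x, nm x ∈ g.N → (fun n => Fr (pt g) (x n)) ∈ realsP g.M := by
    intro x hx
    exact ⟨nm x, hx, val_nm g hx⟩
  let EM : Set (ℕ → Prop) := {x | realP x ∈ g.val (h32_setN E)}
  have hEM : EM ∈ setsP g.M := by
    refine ⟨h32_setN E, hε, ?_⟩
    ext z
    rw [ZFSet.mem_range]
    constructor
    · intro hz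
      obtain ⟨⟨⟨y, r⟩, hr⟩, hN, hF, hz'⟩ := g.mem_val.1 hz
      have hN' : nm y ∈ g.N := hN
      have hz2 : g.val (nm y) = z := hz'
      rw [val_nm g hN'] at hz2
      refine ⟨⟨fun n => Fr (pt g) (y n), ?_⟩, hz2⟩
      change realP _ ∈ g.val (h32_setN E)
      rw [hz2]
      exact hz
    · rintro ⟨x, rfl⟩
      exact x.2
  have hER : EM ⊆ realsP g.M := fun x hx => g.trans ⟨h32_setN E, hε, rfl⟩ hx
  have memE : ∀ x, nm x ∈ g.N → (Fr (pt g) (E x) ↔ (fun n => Fr (pt g) (x n)) ∈ EM) := by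
    intro x hx
    have h1 := memSE _ hε x hx
    rw [hSE] at h1
    exact h1
  refine ⟨EM, hEM, hER, ?_, ?_⟩
  · -- `E` is unbounded
    intro y hy
    obtain ⟨τ, hτ, -, hτ2, -⟩ := exists_name_of_real g hy
    have ey : (fun n => Fr (pt g) (rl τ n)) = y := funext fun n => propext (hτ2 n)
    obtain ⟨k, hk⟩ := hreq .unb [τ] (by simpa using hτ)
    rcases hk with ⟨x, hx, hx1⟩ | hk
    · have hx2 : g.pc k ∈ E (rl x) ⊓ (leStar (decV (rl x)) (decV (rl τ)))ᶜ := hx1
      rw [RO.mem_inf] at hx2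
      refine ⟨fun n => Fr (pt g) (rl x n), (memE _ (reN x hx)).1 ((fr_pt g).2 ⟨k, hx2.1⟩), ?_⟩
      intro hL
      have hev : Fr (pt g) (leStar (decV (rl x)) (decV (rl τ))) ↔
          LeStar (fun n => Fr (pt g) (rl x n)) fun n => Fr (pt g) (rl τ n) :=
        hpt .leS [x, τ] (by simpa using ⟨hx, hτ⟩)
      rw [ey] at hev
      exact Ev1_fr_compl_not ((fr_pt g).2 ⟨k, hx2.2⟩) (hev.2 hL)
    · exfalso
      have h1 : g.pc k ∈ unbV E := by
        rw [hEu]
        exact RO.mem_top _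
      unfold unbV at h1
      rw [RO.mem_iInf] at h1
      obtain ⟨r, hr, x, hx⟩ := RO.mem_iSup.1 (h1 (rl τ)) _ le_rfl
      refine hk r hr (nm x) ?_
      change r ∈ E (rl (nm x)) ⊓ (leStar (decV (rl (nm x))) (decV (rl τ)))ᶜ
      rw [rl_nm]
      exact hx
  intro C hC had hnc
  obtain ⟨γ, hγ, hγC⟩ := hC
  have memC : ∀ z : ℕ → Prop, realP z ∈ g.val γ ↔ z ∈ C := by
    intro z
    rw [hγC, ZFSet.mem_range]
    constructor
    · rintro ⟨x, hx⟩
      have h1 : x.1 = z := realP_inj hx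
      rw [← h1]
      exact x.2
    · intro hz
      exact ⟨⟨z, hz⟩, rfl⟩
  have FAat : ∀ X A W : ℕ → RO P, nm X ∈ g.N → nm A ∈ g.N → nm W ∈ g.N →
      (Fr (pt g) (h32_FA E γ X A W) ↔ (fun n => Fr (pt g) (X n)) ∈ EM ∧
        BrT (tree C fun n => Fr (pt g) (X n)) (fun n => Fr (pt g) (A n))
          fun n => Fr (pt g) (W n)) := by
    intro X A W hX hA hW
    have hev : Fr (pt g) (brT (treeV (SE γ) (rl (nm X))) (rl (nm A)) (h32_wd (rl (nm W)))) ↔
        (∀ i, ∃ k, Fr (pt g) (rl (nm W) (Nat.pair i k))) ∧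
        ∀ t, Br (fun n => Fr (pt g) (rl (nm A) n)) (fun n => Fr (pt g) (rl (nm W) n)) t →
          Fr (pt g) (treeV (SE γ) (rl (nm X)) t) :=
      hpt .tr [γ, nm X, nm A, nm W] (by simpa using ⟨hγ, hX, hA, hW⟩)
    rw [rl_nm, rl_nm, rl_nm] at hev
    have htree : ∀ t, Fr (pt g) (treeV (SE γ) X t) ↔ tree C (fun n => Fr (pt g) (X n)) t := by
      intro t
      have h1 := shN (Encodable.encode t) (nm X) hX
      rw [rl_nm] at h1
      have h2 := (memSE γ hγ _ h1).trans (memC _)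
      have e : (fun n => Fr (pt g) (shV (Encodable.encode t) X n)) =
          sh (Encodable.encode t) fun n => Fr (pt g) (X n) :=
        funext fun n => propext (h32_fr_shV _ _ n)
      rw [e] at h2
      exact h2
    unfold h32_FA
    rw [fr_inf, memE X hX, hev]
    refine and_congr Iff.rfl (and_congr Iff.rfl (forall_congr' fun t => ?_))
    rw [htree]
  have famOf : ∀ X A W : ℕ → RO P, nm X ∈ g.N → nm A ∈ g.N → nm W ∈ g.N →
      Fr (pt g) (h32_FA E γ X A W) →
        (fun n => Fr (pt g) (A n)) ∈ Fam (realsP g.M) EM C := by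
    intro X A W hX hA hW h
    obtain ⟨h1, h2⟩ := (FAat X A W hX hA hW).1 h
    exact ⟨realN A hA, _, h1, _, realN W hW, h2⟩
  -- the family is forced to be almost disjoint
  have claim1 : ∃ k, g.pc k ∈ adFV (famV E (SE γ)) := by
    obtain ⟨k, hk⟩ := hreq .ad [γ] (by simpa using hγ)
    rcases hk with ⟨x, hx, h1, h2, h3⟩ | hk
    · exfalso
      have e1 := famOf _ _ _ (sqN 2 x hx) (sqN 0 x hx) (sqN 3 x hx) ((fr_pt g).2 ⟨k, h1⟩)
      have e2 := famOf _ _ _ (sqN 4 x hx) (sqN 1 x hx) (sqN 5 x hx) ((fr_pt g).2 ⟨k, h2⟩)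
      have hev : Fr (pt g) (eqV (rl (nm (h32_sq x 0))) (rl (nm (h32_sq x 1))) ⊔
          finV (rl (nm (h32_sq x 0)) ⊓ rl (nm (h32_sq x 1)))) ↔
          (∀ n, (Fr (pt g) (rl (nm (h32_sq x 0)) n) ↔ Fr (pt g) (rl (nm (h32_sq x 1)) n))) ∨
          Fin' fun n => Fr (pt g) (rl (nm (h32_sq x 0)) n) ∧ Fr (pt g) (rl (nm (h32_sq x 1)) n) :=
        hpt .ad [nm (h32_sq x 0), nm (h32_sq x 1)] (by simpa using ⟨sqN 0 x hx, sqN 1 x hx⟩)
      rw [rl_nm, rl_nm] at hev
      refine Ev1_fr_compl_not ((fr_pt g).2 ⟨k, h3⟩) (hev.2 ?_)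
      rcases had _ e1 _ e2 with h | h
      · exact Or.inl fun n => iff_of_eq (congrFun h n)
      · exact Or.inr h
    · refine ⟨k, ?_⟩
      unfold adFV
      rw [RO.mem_iInf]
      intro a
      rw [RO.mem_iInf]
      intro b
      rw [RO.mem_himp]
      intro q hq hqab
      by_contra hne
      obtain ⟨r, hr, hr'⟩ := h32_exists_compl hne
      rw [RO.mem_inf] at hqab
      obtain ⟨r1, hr1, x1, w1, h1⟩ := h32_mem_famV (RO.mem_lower hr hqab.1)
      obtain ⟨r2, hr2, x2, w2, h2⟩ := h32_mem_famV (RO.mem_lower (hr1.trans hr) hqab.2)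
      refine hk r2 ((hr2.trans (hr1.trans hr)).trans hq) (nm (h32_cq fun j => match j with
        | 0 => a
        | 1 => b
        | 2 => x1
        | 3 => w1
        | 4 => x2
        | _ => w2)) ?_
      refine ⟨?_, ?_, ?_⟩
      · rw [h32_sq_nm]
        exact RO.mem_lower hr2 h1
      · rw [h32_sq_nm]
        exact h2
      · rw [h32_sq_nm]
        exact RO.mem_lower (hr2.trans hr1) hr'
  have claim2 : ∃ k, g.pc k ∈ ncFV (famV E (SE γ)) := by
    obtain ⟨k, hk⟩ := hreq .nc [γ] (by simpa using hγ)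
    rcases hk with ⟨x, hx, m, h1, h2⟩ | hk
    · exfalso
      have hev : Fr (pt g) (finV (usup ((List.range m).map fun i => h32_sq x (3 * i + 1)))ᶜ) ↔
          Fin' fun n => ¬ ∃ a ∈ (List.range m).map fun i => h32_sq x (3 * i + 1),
            Fr (pt g) (a n) := hpt (.nc m) [x] (by simpa using hx)
      refine hnc ((List.range m).map fun i n => Fr (pt g) (h32_sq x (3 * i + 1) n)) ?_ ?_
      · intro a ha
        obtain ⟨i, hi, rfl⟩ := List.mem_map.1 ha
        exact famOf _ _ _ (sqN _ x hx) (sqN _ x hx) (sqN _ x hx)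
          ((fr_pt g).2 ⟨k, h1 i (List.mem_range.1 hi)⟩)
      · have h3 := hev.1 ((fr_pt g).2 ⟨k, h2⟩)
        have e : (fun n => ¬ ∃ a ∈ (List.range m).map fun i => h32_sq x (3 * i + 1),
            Fr (pt g) (a n)) = fun n => ¬ ∃ a ∈ (List.range m).map
              fun i n => Fr (pt g) (h32_sq x (3 * i + 1) n), a n := by
          funext n
          simp [List.mem_map]
        rw [e] at h3
        exact h3
    · refine ⟨k, ?_⟩
      unfold ncFV
      rw [RO.mem_iInf]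
      intro l
      rw [RO.mem_himp]
      intro q hq hql
      rw [RO.mem_compl]
      intro r hr hrf
      obtain ⟨r1, hr1, X, hX1, hX2⟩ := h32_mem_allV l (RO.mem_lower hr hql)
      refine hk r1 ((hr1.trans hr).trans hq) (nm (h32_cq X)) ⟨l.length, ?_, ?_⟩
      · intro i hi
        rw [h32_sq_nm]
        exact hX2 i hi
      · rw [h32_sq_nm, hX1]
        exact RO.mem_lower hr1 hrf
  obtain ⟨k₁, hk₁⟩ := claim1
  obtain ⟨k₂, hk₂⟩ := claim2
  obtain ⟨k₃, hk₃⟩ := hreq .con [γ] (by simpa using hγ)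
  have hcon : ∃ z ∈ g.N, g.pc k₃ ∈ (finV (rl z))ᶜ ⊓
      ⨅ a : ℕ → RO P, famV E (SE γ) a ⇨ finV (rl z ⊓ a) := by
    rcases hk₃ with hk₃ | hk₃
    · exact hk₃
    · exfalso
      have h1 : g.pc (k₁ + k₂ + k₃) ∈ conFV (famV E (SE γ)) :=
        hEC (SE γ) (isSetName_SE γ) _ (RO.mem_inf.2
          ⟨RO.mem_lower (g.pc_le (by omega)) hk₁, RO.mem_lower (g.pc_le (by omega)) hk₂⟩)
      unfold conFV at h1
      obtain ⟨r, hr, z, hz⟩ := RO.mem_iSup.1 h1 _ le_rfl
      refine hk₃ r (hr.trans (g.pc_le (by omega))) (nm z) ?_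
      change r ∈ (finV (rl (nm z)))ᶜ ⊓
        ⨅ a : ℕ → RO P, famV E (SE γ) a ⇨ finV (rl (nm z) ⊓ a)
      rw [rl_nm]
      exact hz
  obtain ⟨z, hz, hz1⟩ := hcon
  rw [RO.mem_inf] at hz1
  refine ⟨fun n => Fr (pt g) (rl z n), realN _ (reN z hz), ?_, ?_⟩
  · intro hfin
    have hev : Fr (pt g) (finV (rl z)) ↔ Fin' fun n => Fr (pt g) (rl z n) :=
      hpt .fin [z] (by simpa using hz)
    exact Ev1_fr_compl_not ((fr_pt g).2 ⟨k₃, hz1.1⟩) (hev.2 hfin)
  · rintro a ⟨haR, x, hxE, w, hwR, hbr⟩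
    obtain ⟨α, hα, -, hα2, -⟩ := exists_name_of_real g haR
    obtain ⟨ξ, hξ, -, hξ2, -⟩ := exists_name_of_real g (hER hxE)
    obtain ⟨ω, hω, -, hω2, -⟩ := exists_name_of_real g hwR
    have ea : (fun n => Fr (pt g) (rl α n)) = a := funext fun n => propext (hα2 n)
    have ex : (fun n => Fr (pt g) (rl ξ n)) = x := funext fun n => propext (hξ2 n)
    have ew : (fun n => Fr (pt g) (rl ω n)) = w := funext fun n => propext (hω2 n)
    have h1 : Fr (pt g) (h32_FA E γ (rl ξ) (rl α) (rl ω)) := by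
      rw [FAat _ _ _ (reN ξ hξ) (reN α hα) (reN ω hω), ea, ex, ew]
      exact ⟨hxE, hbr⟩
    have h2 : Fr (pt g) (famV E (SE γ) (rl α)) := fr_mono (h32_FA_le _ _ _ _ _) h1
    have h3 : Fr (pt g) (famV E (SE γ) (rl α) ⇨ finV (rl z ⊓ rl α)) :=
      fr_mono (iInf_le _ (rl α)) ((fr_pt g).2 ⟨k₃, hz1.2⟩)
    have h4 : Fr (pt g) (finV (rl z ⊓ rl α)) := fr_mono himp_inf_le (fr_inf.2 ⟨h3, h2⟩)
    have hev : Fr (pt g) (finV (rl z ⊓ rl α)) ↔
        Fin' fun n => Fr (pt g) (rl z n) ∧ Fr (pt g) (rl α n) :=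
      hpt .inf [z, α] (by simpa using ⟨hz, hα⟩)
    have h5 := hev.1 h4
    rw [← ea]
    exact h5

end Pool.Agent.Helper94.BA
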